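import Pool.Agent.Helper32.Thin.Common

/-! Part CMM. -/

set_option autoImplicit false
set_option linter.all false

open Polynomial IsDedekindDomain
open scoped Classical

namespace Pool.Agent.Helper32.Thin.CMM

open Pool.Agent.TH115.GD Pool.Agent.Helper55.TT
open Pool.Agent.Helper55.RG hiding em_inj VanishL VanishExt
open Pool.Agent.Helper55.RL Pool.Agent.Helper55.RT

theorem main : Q_CMM := by
  intro k k' _ _ _ _ _ κ₀ κ _ hle g n D θ hn hD hθ hW hA i b b' hb hb'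
  haveI : IsGalois k k' := inferInstance
  obtain ⟨j₁, j₂, h1, h2, h12⟩ : ∃ j₁ j₂ : Fin n, j₁ ≠ i ∧ j₂ ≠ i ∧ j₁ ≠ j₂ := by
    have hc : 2 < (Finset.univ : Finset (Fin n)).card := by simp; omega
    have : 1 < (Finset.univ.erase i : Finset (Fin n)).card := by
      rw [Finset.card_erase_of_mem (Finset.mem_univ i)]; omega
    obtain ⟨j₁, h1, j₂, h2, h12⟩ := Finset.one_lt_card.1 this
    exact ⟨j₁, j₂, (Finset.mem_erase.1 h1).1, (Finset.mem_erase.1 h2).1, h12⟩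
  set π : Equiv.Perm (Fin n) := Equiv.swap i j₁ * Equiv.swap i j₂ with hπ
  have hπa : π ∈ alternatingGroup (Fin n) := by
    rw [Equiv.Perm.mem_alternatingGroup, hπ, Equiv.Perm.sign_mul, Equiv.Perm.sign_swap h1.symm,
      Equiv.Perm.sign_swap h2.symm]
    rfl
  have hπj : π j₁ = i := by
    rw [hπ, Equiv.Perm.mul_apply, Equiv.swap_apply_of_ne_of_ne h1 h12, Equiv.swap_apply_right]
  obtain ⟨ν, hν⟩ := hA π hπa
  have hνj : ν (θ j₁) = θ i := by rw [hν, hπj]
  have hνs : ν.symm (θ i) = θ j₁ := by rw [← hνj, AlgEquiv.symm_apply_apply]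
  have hνf : ∀ x ∈ κ, ν x = x := fun x hx => ν.commutes ⟨x, hx⟩
  have hνf' : ∀ x ∈ κ, ν.symm x = x := fun x hx => ν.symm.commutes ⟨x, hx⟩
  have hc₂ : ev2 (algebraMap κ₀ k') (θ j₁) (ν.symm b') g = 0 := by
    have := ev2_map (algebraMap κ₀ k') (θ i) b' g (ν.symm : k' →+* k')
      (fun r => hνf' _ (hle r.2))
    rw [hb', map_zero] at this
    rw [← hνs]
    exact this.symm
  obtain ⟨h, hh, hhb, hhc⟩ := hW θ θ hθ hθ i j₁ h1.symm b' (ν.symm b') b (ν.symm b') hb' hc₂ hb hc₂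
  have hhs : h.symm b = b' := by rw [← hhb, AlgEquiv.symm_apply_apply]
  have hhθ : h.symm (θ i) = θ i := by
    conv_lhs => rw [← hh i]
    rw [AlgEquiv.symm_apply_apply]
  refine ⟨mkA κ (((h.symm : k' ≃+* k').trans (ν.symm : k' ≃+* k')).trans
    ((h : k' ≃+* k').trans (ν : k' ≃+* k'))) ?_, ?_, ?_⟩
  · intro x hx
    show ν (h (ν.symm (h.symm x))) = x
    rw [hνf' _ (nrm κ κ₀ h.symm hx), AlgEquiv.apply_symm_apply, hνf x hx]
  · show ν (h (ν.symm (h.symm (θ i)))) = θ i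
    rw [hhθ, hνs, hh, hνj]
  · show ν (h (ν.symm (h.symm b))) = b'
    rw [hhs, hhc, AlgEquiv.apply_symm_apply]

end Pool.Agent.Helper32.Thin.CMM
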