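import Pool.Agent.Helper55.RT.Spec

/-! Common lemmas for the Galois theoretic parts. -/

set_option autoImplicit false
set_option linter.all false

open Polynomial IsDedekindDomain
open scoped Classical

namespace Pool.Agent.Helper32.Thin

open Pool.Agent.TH115.GD Pool.Agent.Helper55.TT
open Pool.Agent.Helper55.RG hiding em_inj VanishL VanishExt
open Pool.Agent.Helper55.RL Pool.Agent.Helper55.RT

theorem ev2_map {R N : Type} [CommRing R] [CommRing N] (φ : R →+* N) (t α : N) (g : R[X][X])
    (τ : N →+* N) (h : ∀ r, τ (φ r) = φ r) : τ (ev2 φ t α g) = ev2 φ (τ t) (τ α) g := by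
  unfold ev2
  rw [hom_eval₂]
  congr 1
  apply Polynomial.ringHom_ext
  · intro r
    simp [h]
  · simp

theorem nrm {k k' : Type} [Field k] [Field k'] [Algebra k k'] (κ κ₀ : IntermediateField k k')
    [Normal k κ] [Algebra.IsAlgebraic k k'] [Normal k k'] (h : k' ≃ₐ[κ₀] k') {x : k'} (hx : x ∈ κ) : h x ∈ κ := by
  have h1 := (IntermediateField.normal_iff_forall_map_le'.1 (inferInstance : Normal k κ))
    (h.restrictScalars k)
  exact h1 ⟨x, hx, rfl⟩

/-- an automorphism over `κ` from a ring automorphism which fixes `κ`. -/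
noncomputable def mkA {k k' : Type} [Field k] [Field k'] [Algebra k k'] (κ : IntermediateField k k')
    (f : k' ≃+* k') (h : ∀ x ∈ κ, f x = x) : k' ≃ₐ[κ] k' :=
  AlgEquiv.ofRingEquiv (f := f) fun x => h x x.2

theorem mkA_apply {k k' : Type} [Field k] [Field k'] [Algebra k k'] (κ : IntermediateField k k')
    (f : k' ≃+* k') (h : ∀ x ∈ κ, f x = x) (x : k') : mkA κ f h x = f x := rfl

theorem inj_of {k k' : Type} [Field k] [CharZero k] [Field k'] [Algebra k k'] {n : ℕ} {D : k[X]}
    {θ : Fin n → k'} (hD : Irreducible D)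
    (hθ : D.map (algebraMap k k') = ∏ i, (X - C (θ i))) : Function.Injective θ := by
  have hs : (∏ i, (X - C (θ i))).Separable := by
    rw [← hθ]; exact hD.separable.map
  exact hs.injective_of_prod_X_sub_C

theorem perm_of {k k' : Type} [Field k] [Field k'] [Algebra k k'] {n : ℕ} {D : k[X]}
    {θ : Fin n → k'} (hθ : D.map (algebraMap k k') = ∏ i, (X - C (θ i)))
    (ν : k' ≃ₐ[k] k') (l : Fin n) : ∃ m, ν (θ l) = θ m := by
  have h1 : (D.map (algebraMap k k')).eval (θ l) = 0 := by
    rw [hθ, eval_prod]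
    exact Finset.prod_eq_zero (Finset.mem_univ l) (by simp)
  have h2 : (D.map (algebraMap k k')).eval (ν (θ l)) = 0 := by
    rw [eval_map_algebraMap] at h1 ⊢
    have h3 := Polynomial.aeval_algHom_apply (ν : k' →ₐ[k] k') (θ l) D
    rw [h1, map_zero] at h3
    exact h3
  rw [hθ, eval_prod, Finset.prod_eq_zero_iff] at h2
  obtain ⟨m, -, hm⟩ := h2
  refine ⟨m, ?_⟩
  rw [eval_sub, eval_X, eval_C, sub_eq_zero] at hm
  exact hm

theorem root_ex {k' : Type} {R : Type} [CommRing R] [Field k'] [IsAlgClosed k'] (φ : R →+* k')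
    (t : k') {g : R[X][X]} (hg : g.Monic) (hd : 0 < g.natDegree) : ∃ b, ev2 φ t b g = 0 := by
  have h1 : (g.map (eval₂RingHom φ t)).natDegree = g.natDegree := hg.natDegree_map _
  obtain ⟨b, hb⟩ := IsAlgClosed.exists_root (g.map (eval₂RingHom φ t)) (by
    intro h
    have h' : (g.map (eval₂RingHom φ t)).natDegree = 0 := natDegree_eq_of_degree_eq_some h
    omega)
  refine ⟨b, ?_⟩
  unfold ev2
  rw [IsRoot, eval_map] at hb
  exact hb

end Pool.Agent.Helper32.Thin
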