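import Pool.Agent.Helper55.RT.Spec
import Pool.Agent.Helper47.RG.PRK
import Pool.Agent.Helper55.RG.Hfin2

/-! Part DSG: descent of a primitive element. -/

set_option autoImplicit false
set_option linter.all false

open Polynomial IsDedekindDomain
open scoped Classical

namespace Pool.Agent.Helper32.Thin.DSG

open Pool.Agent.TH115.GD Pool.Agent.Helper55.TT
open Pool.Agent.Helper55.RG hiding em_inj VanishL VanishExt
open Pool.Agent.Helper55.RL Pool.Agent.Helper55.RT

/-- a polynomial in two variables over `k'` is defined over a finite normal extension of `k` which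
contains `T`. -/
theorem descend {k k' : Type} [Field k] [CharZero k] [Field k'] [Algebra k k']
    [IsSepClosure k k'] (g₁ : k'[X][X]) (T : Set k') (hT : T.Finite) :
    ∃ (κ₀ : IntermediateField k k') (g : κ₀[X][X]), FiniteDimensional k κ₀ ∧ Normal k κ₀ ∧
      (∀ t ∈ T, t ∈ κ₀) ∧ g.map (mapRingHom (algebraMap κ₀ k')) = g₁ := by
  haveI : IsGalois k k' := inferInstance
  set U : Finset k' := hT.toFinset ∪
    g₁.support.biUnion fun n => (g₁.coeff n).support.image fun m => (g₁.coeff n).coeff m with hU
  set M : IntermediateField k k' := IntermediateField.adjoin k (U : Set k') with hM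
  haveI : FiniteDimensional k M := IntermediateField.finiteDimensional_adjoin fun x _ =>
    Algebra.IsIntegral.isIntegral (R := k) x
  set κ₀ : IntermediateField k k' := IntermediateField.normalClosure k M k' with hκ
  have hle : M ≤ κ₀ := IntermediateField.le_normalClosure M
  have hUm : ∀ x ∈ U, x ∈ κ₀ := fun x hx => hle (IntermediateField.subset_adjoin _ _ hx)
  have hc : ∀ n m, (g₁.coeff n).coeff m ∈ κ₀ := by
    intro n m
    by_cases h0 : (g₁.coeff n).coeff m = 0
    · rw [h0]; exact zero_mem _
    · have h1 : g₁.coeff n ≠ 0 := by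
        intro h; rw [h, coeff_zero] at h0; exact h0 rfl
      apply hUm
      rw [hU, Finset.mem_union]
      right
      rw [Finset.mem_biUnion]
      exact ⟨n, mem_support_iff.2 h1, Finset.mem_image.2 ⟨m, mem_support_iff.2 h0, rfl⟩⟩
  have hl : g₁ ∈ Polynomial.lifts (mapRingHom (algebraMap κ₀ k')) := by
    rw [Polynomial.lifts_iff_coeff_lifts]
    intro n
    have h2 : g₁.coeff n ∈ Polynomial.lifts (algebraMap κ₀ k') := by
      rw [Polynomial.lifts_iff_coeff_lifts]
      intro m
      exact ⟨⟨_, hc n m⟩, rfl⟩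
    obtain ⟨q, hq⟩ := (Polynomial.mem_lifts _).1 h2
    exact ⟨q, hq⟩
  obtain ⟨g, hg⟩ := (Polynomial.mem_lifts _).1 hl
  refine ⟨κ₀, g, inferInstance, inferInstance, fun t ht => hUm t ?_, hg⟩
  rw [hU, Finset.mem_union]
  left
  exact hT.mem_toFinset.2 ht

theorem main : Q_DSG := by
  intro k k' K F _ _ _ _ _ _ _ _ _ _ hT L2 _ T hTf
  haveI := hT.sep
  haveI := hT.fracK
  obtain ⟨α₀, g₀, A, B, s, hα₀, hgm, hgα, hgi, hs, hAB⟩ := Pool.Agent.Helper47.RG.PRK.main k K L2
  set α : Sep F := (α₀ : Sep F) with hα
  have hL : IntermediateField.adjoin K {α} = L2 := by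
    have h1 := congrArg IntermediateField.lift hα₀
    rw [IntermediateField.lift_adjoin_simple, IntermediateField.lift_top] at h1
    exact h1
  have hgα' : eval₂ (em k K (Sep F)) α g₀ = 0 := by
    have h1 := congrArg (algebraMap L2 (Sep F)) hgα
    rw [hom_eval₂, map_zero] at h1
    exact h1
  set G : k'[X][X] := g₀.map (mapRingHom (algebraMap k k')) with hG
  have hGm : G.Monic := hgm.map _
  have hGα : eval₂ (em k' F (Sep F)) α G = 0 := by rw [hG, ev_gmap hT, hgα']
  letI : Algebra k'[X] (Sep F) := (em k' F (Sep F)).toAlgebra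
  haveI hst : IsScalarTower k'[X] F (Sep F) := IsScalarTower.of_algebraMap_eq fun _ => rfl
  haveI htf : Module.IsTorsionFree k'[X] (Sep F) := by
    rw [Module.isTorsionFree_iff_algebraMap_injective]
    exact (algebraMap F (Sep F)).injective.comp (IsFractionRing.injective k'[X] F)
  have hint : IsIntegral k'[X] α := ⟨G, hGm, hGα⟩
  have hmin : minpoly F α = (minpoly k'[X] α).map (algebraMap k'[X] F) :=
    minpoly.isIntegrallyClosed_eq_field_fractions' F hint
  have hirrF : Irreducible ((minpoly k'[X] α).map (algebraMap k'[X] F)) := by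
    rw [← hmin]
    exact minpoly.irreducible hint.tower_top
  have hirr : Irreducible (minpoly k'[X] α) :=
    ((minpoly.monic hint).irreducible_iff_irreducible_map_fraction_map (K := F)).2 hirrF
  have hdvd : minpoly k'[X] α ∣ G := minpoly.isIntegrallyClosed_dvd hint hGα
  obtain ⟨κ₀, g, hfd, hn, hTκ, hg⟩ := descend (k := k) (minpoly k'[X] α) T hTf
  have hinj : Function.Injective (mapRingHom (algebraMap κ₀ k')) :=
    Polynomial.map_injective _ (algebraMap κ₀ k').injective
  refine ⟨κ₀, g, α, s, hfd, hn, hTκ, ?_, ?_, ?_, hL, ?_, hs, ?_⟩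
  · exact Polynomial.monic_of_injective hinj (by rw [hg]; exact minpoly.monic hint)
  · rw [← natDegree_map_eq_of_injective hinj g, hg]
    exact minpoly.natDegree_pos hint
  · show Irreducible ((g.map (mapRingHom (algebraMap κ₀ k'))).map
      (algebraMap k'[X] (FractionRing k'[X])))
    rw [hg]
    exact ((minpoly.monic hint).irreducible_iff_irreducible_map_fraction_map
      (K := FractionRing k'[X])).1 hirr
  · rw [hg]
    exact minpoly.aeval k'[X] α
  · intro a ha
    rw [hg]
    refine Polynomial.Separable.of_dvd (sep_at hAB (a := a) ?_)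
      (Polynomial.map_dvd (evalRingHom a) hdvd)
    rw [eval_map_algebraMap]
    exact ha

end Pool.Agent.Helper32.Thin.DSG
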