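import Pool.Agent.Helper32.Thin.Common

/-! Part SPT. -/

set_option autoImplicit false
set_option linter.all false

open Polynomial IsDedekindDomain
open scoped Classical

namespace Pool.Agent.Helper32.Thin.SPT

open Pool.Agent.TH115.GD Pool.Agent.Helper55.TT
open Pool.Agent.Helper55.RG hiding em_inj VanishL VanishExt
open Pool.Agent.Helper55.RL Pool.Agent.Helper55.RT

theorem main : Q_SPT := by
  intro k k' _ _ _ _ _ κ₀ k₂ _ _ g hg hgd n D θ hn hD hθ hW hin i₀
  haveI : IsGalois k k' := inferInstance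
  haveI : CharZero k' := charZero_of_injective_algebraMap (algebraMap k k').injective
  haveI : IsSepClosed k' := IsSepClosure.sep_closed k
  haveI : IsAlgClosed k' := inferInstance
  haveI : IsGalois k₂ k' := inferInstance
  have hinj := inj_of hD hθ
  have key : ∀ (ν : k' ≃ₐ[k₂] k') (i : Fin n), ν (θ i) = θ i := by
    intro ν
    choose π hπ using fun l => perm_of hθ (ν.restrictScalars k) l
    have hπ' : ∀ l, ν (θ l) = θ (π l) := hπ
    have hνf' : ∀ x ∈ k₂, ν.symm x = x := fun x hx => ν.symm.commutes ⟨x, hx⟩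
    have hνf : ∀ x ∈ k₂, ν x = x := fun x hx => ν.commutes ⟨x, hx⟩
    have hcomm : ∀ (ρ : Equiv.Perm (Fin n)) (j : Fin n), π (ρ j) = ρ (π j) := by
      intro ρ j
      have h0 : (⟨0, by omega⟩ : Fin n) ≠ ⟨1, by omega⟩ := by
        intro h; exact absurd (Fin.mk.inj_iff.1 h) (by norm_num)
      obtain ⟨b, hb⟩ := root_ex (algebraMap κ₀ k') (θ ⟨0, by omega⟩) hg hgd
      obtain ⟨c, hc⟩ := root_ex (algebraMap κ₀ k') (θ ⟨1, by omega⟩) hg hgd
      obtain ⟨b', hb'⟩ := root_ex (algebraMap κ₀ k') (θ (ρ ⟨0, by omega⟩)) hg hgd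
      obtain ⟨c', hc'⟩ := root_ex (algebraMap κ₀ k') (θ (ρ ⟨1, by omega⟩)) hg hgd
      obtain ⟨s, hs, -, -⟩ := hW θ (θ ∘ ρ) hθ
        (by rw [hθ]; exact (Equiv.prod_comp ρ fun i => (X - C (θ i))).symm)
        ⟨0, by omega⟩ ⟨1, by omega⟩ h0 b c b' c' hb hc hb' hc'
      have hs' : ∀ l, s (θ l) = θ (ρ l) := hs
      have hsf : ∀ x ∈ κ₀, s x = x := fun x hx => s.commutes ⟨x, hx⟩
      have hsf' : ∀ x ∈ κ₀, s.symm x = x := fun x hx => s.symm.commutes ⟨x, hx⟩
      set f : k' ≃ₐ[k] k' := (((s.restrictScalars k).symm).trans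
        ((ν.restrictScalars k).symm)).trans ((s.restrictScalars k).trans (ν.restrictScalars k))
        with hf
      have hfa : ∀ x, f x = ν (s (ν.symm (s.symm x))) := fun x => rfl
      have hfix : k₂ ⊔ κ₀ ≤ IntermediateField.fixedField (Subgroup.zpowers f) := by
        apply sup_le
        · intro x hx
          rw [IntermediateField.mem_fixedField_iff]
          intro τ hτ
          have h1 : f ∈ k₂.fixingSubgroup := by
            rw [IntermediateField.mem_fixingSubgroup_iff]
            intro y hy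
            rw [hfa, hνf' _ (nrm k₂ κ₀ s.symm hy), AlgEquiv.apply_symm_apply, hνf y hy]
          exact (IntermediateField.mem_fixingSubgroup_iff _ _).1
            ((Subgroup.zpowers_le.2 h1) hτ) x hx
        · intro x hx
          rw [IntermediateField.mem_fixedField_iff]
          intro τ hτ
          have h1 : f ∈ κ₀.fixingSubgroup := by
            rw [IntermediateField.mem_fixingSubgroup_iff]
            intro y hy
            rw [hfa, hsf' y hy, hsf _ (nrm κ₀ k₂ ν.symm hy), AlgEquiv.apply_symm_apply]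
          exact (IntermediateField.mem_fixingSubgroup_iff _ _).1
            ((Subgroup.zpowers_le.2 h1) hτ) x hx
      have h2 : f (θ (ρ (π j))) = θ (ρ (π j)) := by
        have := hfix (hin (ρ (π j)))
        rw [IntermediateField.mem_fixedField_iff] at this
        exact this f (Subgroup.mem_zpowers f)
      rw [hfa, ← hs', AlgEquiv.symm_apply_apply, ← hπ', AlgEquiv.symm_apply_apply, hs', hπ',
        hπ', hs'] at h2
      exact hinj h2
    intro i
    rw [hπ']
    congr 1
    by_contra hne
    obtain ⟨l, hl1, hl2⟩ : ∃ l : Fin n, l ≠ i ∧ l ≠ π i := by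
      by_contra hcon
      push Not at hcon
      have h5 : (Finset.univ : Finset (Fin n)) ⊆ {i, π i} := by
        intro l _
        by_cases h : l = i
        · simp [h]
        · simp [hcon l h]
      have h6 := Finset.card_le_card h5
      have h7 : ({i, π i} : Finset (Fin n)).card ≤ 2 := Finset.card_le_two
      simp at h6
      omega
    have h8 := hcomm (Equiv.swap (π i) l) i
    rw [Equiv.swap_apply_of_ne_of_ne (Ne.symm hne) (Ne.symm hl1), Equiv.swap_apply_left] at h8
    exact hl2 h8.symm
  have h9 : θ i₀ ∈ (⊥ : IntermediateField k₂ k') :=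
    (InfiniteGalois.mem_bot_iff_fixed (θ i₀)).2 fun ν => key ν i₀
  obtain ⟨y, hy⟩ := IntermediateField.mem_bot.1 h9
  rw [← hy]
  exact y.2

end Pool.Agent.Helper32.Thin.SPT
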